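import Pool.Agent.R271.Basic

/-!
# Admissible Banach spaces have modulus of convexity of power type 2
-/

open Filter Topology Metric Set
open scoped NNReal

namespace Pool.Agent.Results.MP_122452_an.AdmissiblePowerTwo

/-- `X` has modulus of convexity of power type 2: for some `L > 0`, `L t² ≤ δ_X(t)` for all
`t ∈ [0,2]`, that is `L t² ≤ 1 - ‖(x+y)/2‖` for all unit vectors with `‖x - y‖ ≥ t`. -/
def PowerTypeTwo (X : Type*) [NormedAddCommGroup X] [NormedSpace ℝ X] : Prop :=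
  ∃ L : ℝ, 0 < L ∧ ∀ t ∈ Icc (0 : ℝ) 2, ∀ x y : X, ‖x‖ = 1 → ‖y‖ = 1 → t ≤ ‖x - y‖ →
    L * t ^ 2 ≤ 1 - ‖(1 / 2 : ℝ) • (x + y)‖

/-- `f` is second order Lipschitz on `U`. -/
def SecondOrderLipschitz {X : Type*} [NormedAddCommGroup X] [NormedSpace ℝ X] (U : Set X)
    (f : X → X) : Prop :=
  ∃ L : ℝ, ∀ t : ℝ, 0 < t → ∀ x h : X, ‖h‖ ≤ t → segment ℝ (x - h) (x + h) ⊆ U →
    ‖f (x + h) - (2 : ℝ) • f x + f (x - h)‖ ≤ L * t ^ 2

/-- `f` is Lipschitz-open on `U`. -/
def LipschitzOpen {X : Type*} [NormedAddCommGroup X] (U : Set X) (f : X → X) : Prop :=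
  ∃ c : ℝ, 0 < c ∧ ∀ x ∈ U, ∀ ε : ℝ, 0 < ε → ball x ε ⊆ U →
    ball (f x) (c * ε) ⊆ f '' ball x ε

/-- `f` is locally convex on `U`. -/
def LocallyConvexMap {X : Type*} [NormedAddCommGroup X] [NormedSpace ℝ X] (U : Set X)
    (f : X → X) : Prop :=
  ∃ c : ℝ, 0 < c ∧ ∀ ε : ℝ, 0 < ε → ε ≤ c → ∀ x ∈ U, ball x ε ⊆ U → Convex ℝ (f '' ball x ε)

/-- `X` is admissible. Only the values of `f` on `U` matter. -/
def Admissible (X : Type*) [NormedAddCommGroup X] [NormedSpace ℝ X] : Prop :=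
  ∀ (U : Set X), IsOpen U → ∀ f : X → X, LipschitzOpen U f → SecondOrderLipschitz U f →
    LocallyConvexMap U f

section
variable {X : Type*} [NormedAddCommGroup X] [NormedSpace ℝ X]

/-- The quadratic perturbation is Lipschitz on small balls. -/
lemma quad_lip (g : StrongDual ℝ X) (hg : ‖g‖ ≤ 1) (u : X) (hu : ‖u‖ = 1) {v w : X}
    (hv : ‖v‖ ≤ 1 / 4) (hw : ‖w‖ ≤ 1 / 4) :
    ‖(g v) ^ 2 • u - (g w) ^ 2 • u‖ ≤ 1 / 2 * ‖v - w‖ := by
  rw [← sub_smul, norm_smul, hu, mul_one, Real.norm_eq_abs]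
  have e : (g v) ^ 2 - (g w) ^ 2 = g (v - w) * (g v + g w) := by rw [map_sub]; ring
  rw [e, abs_mul]
  have h1 := R271.abs_dual_le_norm g hg (v - w)
  have h2 := R271.abs_dual_le_norm g hg v
  have h3 := R271.abs_dual_le_norm g hg w
  have h4 : |g v + g w| ≤ 1 / 2 := (abs_add_le _ _).trans (by linarith)
  calc |g (v - w)| * |g v + g w| ≤ ‖v - w‖ * (1 / 2) :=
        mul_le_mul h1 h4 (abs_nonneg _) (norm_nonneg _)
    _ = 1 / 2 * ‖v - w‖ := mul_comm _ _

/-- The identity as a nonlinear right inverse of itself. -/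
noncomputable def idInv : (ContinuousLinearMap.id ℝ X).NonlinearRightInverse where
  toFun := id
  nnnorm := 1
  bound' y := by simp
  right_inv' y := rfl

end

lemma final_num {η H a κ b r' r : ℝ} (hη : 0 < η) (hη1 : η ≤ 1 / 256) (hH0 : 0 < H) (hH1 : H ≤ 1)
    (hr' : r' = 16 * η) (hr : r = r' * (1 + 4 * η * H ^ 2)) (ha0 : 0 < a) (ha1 : a ≤ 1)
    (hlow : 1 - a < 4 * η * H ^ 2) (hκ1 : κ ^ 2 ≤ 1) (hbn : |b| < r)
    (hb : b = r' * a + r' ^ 2 * (a ^ 2 * κ ^ 2 + H ^ 2) - (b * κ) ^ 2) : False := by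
  obtain ⟨hb1, hb2⟩ := abs_lt.1 hbn
  have hr'0 : 0 < r' := by rw [hr']; positivity
  have hr'1 : r' ≤ 1 / 16 := by rw [hr']; linarith
  have hHsq : H ^ 2 ≤ 1 := pow_le_one₀ hH0.le hH1
  have hr1 : r ≤ 2 * r' := by
    have h1 : 4 * η * H ^ 2 ≤ 1 := by
      have : η * H ^ 2 ≤ η * 1 := mul_le_mul_of_nonneg_left hHsq hη.le
      linarith
    rw [hr]
    have := mul_le_mul_of_nonneg_left h1 hr'0.le
    linarith
  have hr'a : r' * a ≤ r' * 1 := mul_le_mul_of_nonneg_left ha1 hr'0.le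
  have hr'a0 : 0 < r' * a := by positivity
  have h6' : |κ ^ 2 * (b + r' * a)| ≤ 1 / 2 := by
    rw [abs_mul, abs_of_nonneg (sq_nonneg κ)]
    have h1 : |b + r' * a| ≤ 1 / 2 := by
      rw [abs_le]; constructor <;> linarith
    calc κ ^ 2 * |b + r' * a| ≤ 1 * (1 / 2) :=
          mul_le_mul hκ1 h1 (abs_nonneg _) zero_le_one
      _ = 1 / 2 := one_mul _
  obtain ⟨h6a, h6b⟩ := abs_le.1 h6'
  have e5 : (b - r' * a) * (1 + κ ^ 2 * (b + r' * a)) = r' ^ 2 * H ^ 2 := by
    linear_combination hb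
  have h8 : 0 < r' ^ 2 * H ^ 2 := by positivity
  have hs0 : 0 < b - r' * a := by
    by_contra hneg
    have := mul_nonpos_of_nonpos_of_nonneg (not_lt.1 hneg)
      (show 0 ≤ 1 + κ ^ 2 * (b + r' * a) by linarith)
    linarith
  have h9 : r' ^ 2 * H ^ 2 ≤ (b - r' * a) * 2 := by
    rw [← e5]
    exact mul_le_mul_of_nonneg_left (by linarith) hs0.le
  have h10 : r - r' * a ≤ r' ^ 2 * H ^ 2 / 2 := by
    have e6 : r' ^ 2 * H ^ 2 / 2 = r' * (8 * η * H ^ 2) := by rw [hr']; ring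
    rw [e6, hr]
    have : r' * (1 - a) ≤ r' * (4 * η * H ^ 2) := mul_le_mul_of_nonneg_left hlow.le hr'0.le
    linarith
  linarith

theorem result (X : Type*) [NormedAddCommGroup X] [NormedSpace ℝ X] [CompleteSpace X]
    (hX : Admissible X) : PowerTypeTwo X := by
  by_contra hcon
  unfold PowerTypeTwo at hcon
  push Not at hcon
  -- the data
  have hdata : ∀ n : ℕ, ∃ x y : X, ‖x‖ = 1 ∧ ‖y‖ = 1 ∧ 0 < ‖x - y‖ ∧
      1 - ‖(1 / 2 : ℝ) • (x + y)‖ < (1 / (256 * ((n : ℝ) + 1))) * ‖x - y‖ ^ 2 := by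
    intro n
    obtain ⟨t, ⟨ht0, ht2⟩, x, y, hx, hy, hxy, hlt⟩ :=
      hcon (1 / (256 * ((n : ℝ) + 1))) (by positivity)
    have hm : ‖(1 / 2 : ℝ) • (x + y)‖ ≤ 1 := by
      rw [norm_smul, Real.norm_of_nonneg (by norm_num : (0 : ℝ) ≤ 1 / 2)]
      have := norm_add_le x y
      rw [hx, hy] at this
      linarith
    have ht : 0 < t := by
      rcases eq_or_lt_of_le ht0 with h | h
      · rw [← h] at hlt
        simp only [ne_eq, OfNat.ofNat_ne_zero, not_false_eq_true, zero_pow, mul_zero] at hlt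
        linarith
      · exact h
    refine ⟨x, y, hx, hy, ht.trans_le hxy, hlt.trans_le ?_⟩
    apply mul_le_mul_of_nonneg_left _ (by positivity)
    exact pow_le_pow_left₀ ht0 hxy 2
  choose x y hx hy hxy hmid using hdata
  set η : ℕ → ℝ := fun n => 1 / (256 * ((n : ℝ) + 1)) with hη
  have hη0 : ∀ n, 0 < η n := fun n => by simp only [hη]; positivity
  have hη1 : ∀ n, η n ≤ 1 / 256 := fun n => by
    simp only [hη]
    rw [div_le_div_iff₀ (by positivity) (by norm_num)]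
    have : (0 : ℝ) ≤ n := Nat.cast_nonneg n
    linarith
  let m : ℕ → X := fun n => (1 / 2 : ℝ) • (x n + y n)
  let h : ℕ → X := fun n => (1 / 2 : ℝ) • (x n - y n)
  have hhn : ∀ n, ‖x n - y n‖ = 2 * ‖h n‖ := fun n => by
    simp only [h]
    rw [norm_smul, Real.norm_of_nonneg (by norm_num : (0 : ℝ) ≤ 1 / 2)]; ring
  have hh0 : ∀ n, 0 < ‖h n‖ := fun n => by have := hxy n; rw [hhn] at this; linarith
  have hh1 : ∀ n, ‖h n‖ ≤ 1 := fun n => by
    have := norm_sub_le (x n) (y n)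
    rw [hx, hy, hhn] at this
    linarith
  have hmlow : ∀ n, 1 - ‖m n‖ < 4 * η n * ‖h n‖ ^ 2 := fun n => by
    have := hmid n
    rw [hhn] at this
    calc 1 - ‖m n‖ < η n * (2 * ‖h n‖) ^ 2 := this
      _ = 4 * η n * ‖h n‖ ^ 2 := by ring
  have hm1 : ∀ n, ‖m n‖ ≤ 1 := fun n => by
    simp only [m]
    rw [norm_smul, Real.norm_of_nonneg (by norm_num : (0 : ℝ) ≤ 1 / 2)]
    have := norm_add_le (x n) (y n)
    rw [hx, hy] at this
    linarith
  have hm0 : ∀ n, 0 < ‖m n‖ := fun n => by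
    have h1 := hmlow n
    have h2 : ‖h n‖ ^ 2 ≤ 1 := pow_le_one₀ (norm_nonneg _) (hh1 n)
    have h3 := hη1 n
    have h4 := mul_le_mul_of_nonneg_left h2 (hη0 n).le
    linarith
  let u : ℕ → X := fun n => ‖m n‖⁻¹ • m n
  have hu : ∀ n, ‖u n‖ = 1 := fun n => by
    simp only [u]
    rw [norm_smul, norm_inv, norm_norm, inv_mul_cancel₀ (hm0 n).ne']
  have hmu : ∀ n, m n = ‖m n‖ • u n := fun n => by
    simp only [u]
    rw [smul_smul, mul_inv_cancel₀ (hm0 n).ne', one_smul]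
  have hg : ∀ n, ∃ g : StrongDual ℝ X, ‖g‖ ≤ 1 ∧ g (h n) = ‖h n‖ := fun n => by
    obtain ⟨g, hg1, hg2⟩ := exists_dual_vector'' ℝ (h n)
    exact ⟨g, hg1, by simpa using hg2⟩
  choose g hg1 hg2 using hg
  -- the centres
  let p : ℕ → X := fun n => (n : ℝ) • x 0
  have hp : ∀ n k, n ≠ k → 1 ≤ dist (p n) (p k) := by
    intro n k hnk
    simp only [p]
    rw [dist_eq_norm, ← sub_smul, norm_smul, hx, mul_one, Real.norm_eq_abs]
    have h1 : (1 : ℤ) ≤ |(n : ℤ) - (k : ℤ)| := Int.one_le_abs (by omega)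
    exact_mod_cast h1
  have hidx : ∀ z n k, z ∈ ball (p n) (1 / 4) → z ∈ ball (p k) (1 / 4) → n = k := by
    intro z n k hn hk
    by_contra hne
    have h1 := hp n k hne
    rw [mem_ball] at hn hk
    have h2 := dist_triangle_left (p n) (p k) z
    linarith
  let U : Set X := ⋃ n, ball (p n) (1 / 4)
  have hUo : IsOpen U := isOpen_iUnion fun n => isOpen_ball
  classical
  let idx : X → ℕ := fun z => if hz : ∃ n, z ∈ ball (p n) (1 / 4) then hz.choose else 0
  have hidx' : ∀ z n, z ∈ ball (p n) (1 / 4) → idx z = n := by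
    intro z n hz
    have hex : ∃ n, z ∈ ball (p n) (1 / 4) := ⟨n, hz⟩
    simp only [idx, dif_pos hex]
    exact hidx z _ _ hex.choose_spec hz
  let f : X → X := fun z => z + (g (idx z) (z - p (idx z))) ^ 2 • u (idx z)
  have hf : ∀ z n, z ∈ ball (p n) (1 / 4) → f z = z + (g n (z - p n)) ^ 2 • u n := by
    intro z n hz
    simp only [f, hidx' z n hz]
  -- connected subsets lie in one ball
  have hconn : ∀ (s : Set X), IsPreconnected s → s ⊆ U → ∀ z ∈ s, ∀ n, z ∈ ball (p n) (1 / 4) →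
      s ⊆ ball (p n) (1 / 4) := by
    intro s hs hsU z hz n hzn
    apply hs.subset_left_of_subset_union (u := ball (p n) (1 / 4))
      (v := ⋃ k, ⋃ (_ : k ≠ n), ball (p k) (1 / 4)) isOpen_ball
      (isOpen_iUnion fun k => isOpen_iUnion fun _ => isOpen_ball)
    · rw [Set.disjoint_left]
      intro w hw hw'
      rw [mem_iUnion₂] at hw'
      obtain ⟨k, hk, hwk⟩ := hw'
      exact hk (hidx w k n hwk hw)
    · intro w hw
      obtain ⟨k, hk⟩ := mem_iUnion.1 (hsU hw)
      by_cases hkn : k = n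
      · left; rwa [hkn] at hk
      · right; exact mem_iUnion₂.2 ⟨k, hkn, hk⟩
    · exact ⟨z, hz, hzn⟩
  -- Lipschitz-open
  have hLO : LipschitzOpen U f := by
    refine ⟨1 / 2, by norm_num, ?_⟩
    intro z hz ε hε hball
    obtain ⟨n, hn⟩ := mem_iUnion.1 hz
    have hsub : ball z ε ⊆ ball (p n) (1 / 4) :=
      hconn _ (convex_ball z ε).isPreconnected hball z (mem_ball_self hε) n hn
    have happ : ApproximatesLinearOn f (ContinuousLinearMap.id ℝ X) (ball z ε) (1 / 2 : ℝ≥0) := by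
      intro a ha b hb
      have ha' := hsub ha
      have hb' := hsub hb
      rw [hf a n ha', hf b n hb']
      have e1 : a + (g n (a - p n)) ^ 2 • u n - (b + (g n (b - p n)) ^ 2 • u n) -
          (ContinuousLinearMap.id ℝ X) (a - b) =
          (g n (a - p n)) ^ 2 • u n - (g n (b - p n)) ^ 2 • u n := by
        simp only [ContinuousLinearMap.coe_id', id_eq]
        abel
      rw [e1]
      have h1 := quad_lip (g n) (hg1 n) (u n) (hu n) (v := a - p n) (w := b - p n)
        (by rw [← dist_eq_norm]; exact (mem_ball.1 ha').le)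
        (by rw [← dist_eq_norm]; exact (mem_ball.1 hb').le)
      rw [sub_sub_sub_cancel_right] at h1
      simpa using h1
    intro w hw
    rw [mem_ball] at hw
    set ε' := 2 * dist w (f z) with hε'
    have hε'0 : 0 ≤ ε' := by positivity
    have hε'1 : ε' < ε := by rw [hε']; linarith
    have hcb : closedBall z ε' ⊆ ball z ε := closedBall_subset_ball hε'1
    have hs := happ.surjOn_closedBall_of_nonlinearRightInverse idInv hε'0 hcb
    have hmem : w ∈ closedBall (f z) ((((idInv (X := X)).nnnorm : ℝ)⁻¹ - (1 / 2 : ℝ≥0)) * ε') := by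
      rw [mem_closedBall]
      have : (((idInv (X := X)).nnnorm : ℝ)⁻¹ - ((1 / 2 : ℝ≥0) : ℝ)) = 1 / 2 := by
        simp only [idInv, NNReal.coe_one, NNReal.coe_div, NNReal.coe_ofNat]
        norm_num
      rw [this, hε']
      linarith
    obtain ⟨a, ha, haw⟩ := hs hmem
    exact ⟨a, hcb ha, haw⟩
  -- second order Lipschitz
  have hSO : SecondOrderLipschitz U f := by
    refine ⟨2, ?_⟩
    intro t ht z k hk hseg
    have hzs : z ∈ segment ℝ (z - k) (z + k) := by
      refine ⟨1 / 2, 1 / 2, by norm_num, by norm_num, by norm_num, ?_⟩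
      rw [smul_sub, smul_add]
      have : z = (1 / 2 : ℝ) • z + (1 / 2 : ℝ) • z := by rw [← add_smul]; norm_num
      nth_rw 3 [this]
      abel
    obtain ⟨n, hn⟩ := mem_iUnion.1 (hseg hzs)
    have hsub := hconn _ (convex_segment (z - k) (z + k)).isPreconnected hseg z hzs n hn
    rw [hf z n hn, hf (z + k) n (hsub (right_mem_segment ℝ _ _)),
      hf (z - k) n (hsub (left_mem_segment ℝ _ _))]
    have e1 : z + k + (g n (z + k - p n)) ^ 2 • u n - (2 : ℝ) • (z + (g n (z - p n)) ^ 2 • u n) +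
        (z - k + (g n (z - k - p n)) ^ 2 • u n) = (2 * (g n k) ^ 2) • u n := by
      have e2 : g n (z + k - p n) = g n (z - p n) + g n k := by
        rw [← map_add]; congr 1; abel
      have e3 : g n (z - k - p n) = g n (z - p n) - g n k := by
        rw [← map_sub]; congr 1; abel
      rw [e2, e3]
      generalize g n (z - p n) = A
      generalize g n k = B
      generalize u n = w
      module
    rw [e1, norm_smul, hu, mul_one, Real.norm_of_nonneg (by positivity)]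
    have h1 : (g n k) ^ 2 ≤ t ^ 2 := by
      rw [← sq_abs]
      exact pow_le_pow_left₀ (abs_nonneg _) ((R271.abs_dual_le_norm _ (hg1 n) k).trans hk) 2
    linarith
  -- contradiction with local convexity
  obtain ⟨c, hc, hconv⟩ := hX U hUo f hLO hSO
  obtain ⟨n, hn⟩ := exists_nat_gt (1 / c)
  set r' : ℝ := 16 * η n with hr'
  set H : ℝ := ‖h n‖ with hH
  set a : ℝ := ‖m n‖ with ha
  set r : ℝ := r' * (1 + 4 * η n * H ^ 2) with hr
  have hηn := hη0 n
  have hηn1 := hη1 n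
  have hH0 : 0 < H := hh0 n
  have hH1 : H ≤ 1 := hh1 n
  have hHsq : H ^ 2 ≤ 1 := pow_le_one₀ hH0.le hH1
  have hr'0 : 0 < r' := by positivity
  have hr'1 : r' ≤ 1 / 16 := by rw [hr']; linarith
  have hrr' : r' < r := by
    rw [hr]
    have : 0 < r' * (4 * η n * H ^ 2) := by positivity
    linarith
  have hr1 : r ≤ 2 * r' := by
    have h1 : 4 * η n * H ^ 2 ≤ 1 := by
      have : η n * H ^ 2 ≤ η n * 1 := mul_le_mul_of_nonneg_left hHsq hηn.le
      linarith
    rw [hr]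
    have := mul_le_mul_of_nonneg_left h1 hr'0.le
    linarith
  have hrc : r ≤ c := by
    have h1 : r' ≤ 1 / (n + 1) / 2 := by
      rw [hr']
      simp only [hη]
      rw [div_div]
      have : (0 : ℝ) < (n : ℝ) + 1 := by positivity
      rw [mul_one_div, div_le_div_iff₀ (by positivity) (by positivity)]
      linarith
    have h2 : 1 / ((n : ℝ) + 1) ≤ c := by
      rw [div_le_iff₀ (by positivity)]
      rw [div_lt_iff₀ hc] at hn
      linarith
    linarith
  have hballU : ball (p n) r ⊆ ball (p n) (1 / 4) := ball_subset_ball (by linarith)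
  have hcx := hconv r (by linarith) hrc (p n) (mem_iUnion.2 ⟨n, mem_ball_self (by norm_num)⟩)
    (hballU.trans (subset_iUnion (fun n => ball (p n) (1 / 4)) n))
  have hmem : ∀ w : X, ‖w‖ = 1 → p n + r' • w ∈ ball (p n) r := by
    intro w hw
    rw [mem_ball, dist_eq_norm, add_sub_cancel_left, norm_smul, hw, mul_one,
      Real.norm_of_nonneg hr'0.le]
    exact hrr'
  have hfw : ∀ w : X, ‖w‖ = 1 → f (p n + r' • w) =
      p n + r' • w + (r' ^ 2 * (g n w) ^ 2) • u n := by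
    intro w hw
    rw [hf _ n (hballU (hmem w hw)), add_sub_cancel_left, map_smul, smul_eq_mul, mul_pow]
  have hpt := hcx ⟨_, hmem (x n) (hx n), rfl⟩ ⟨_, hmem (y n) (hy n), rfl⟩
    (show (0 : ℝ) ≤ 1 / 2 by norm_num) (show (0 : ℝ) ≤ 1 / 2 by norm_num) (by norm_num)
  rw [hfw _ (hx n), hfw _ (hy n)] at hpt
  obtain ⟨w, hw, hwe⟩ := hpt
  rw [hf w n (hballU hw)] at hwe
  set κ := g n (u n) with hκ
  have hgx : g n (x n) = a * κ + H := by
    have e1 : x n = m n + h n := by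
      simp only [m, h]
      rw [← smul_add]
      have : x n + y n + (x n - y n) = (2 : ℝ) • x n := by rw [two_smul]; abel
      rw [this, smul_smul]; norm_num
    rw [e1, map_add, hg2, hmu n, map_smul, smul_eq_mul]
  have hgy : g n (y n) = a * κ - H := by
    have e1 : y n = m n - h n := by
      simp only [m, h]
      rw [← smul_sub]
      have : x n + y n - (x n - y n) = (2 : ℝ) • y n := by rw [two_smul]; abel
      rw [this, smul_smul]; norm_num
    rw [e1, map_sub, hg2, hmu n, map_smul, smul_eq_mul]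
  rw [hgx, hgy] at hwe
  -- solve for `v = w - p n`
  set v := w - p n with hv
  have hvn : ‖v‖ < r := by rw [hv, ← dist_eq_norm]; exact hw
  set b : ℝ := r' * a + r' ^ 2 * (a ^ 2 * κ ^ 2 + H ^ 2) - (g n v) ^ 2 with hb
  have hvb : v = b • u n := by
    have e1 : w = p n + v := by rw [hv]; abel
    have e2 : (1 / 2 : ℝ) • (p n + r' • x n + (r' ^ 2 * (a * κ + H) ^ 2) • u n) +
        (1 / 2 : ℝ) • (p n + r' • y n + (r' ^ 2 * (a * κ - H) ^ 2) • u n) =
        p n + r' • m n + (r' ^ 2 * (a ^ 2 * κ ^ 2 + H ^ 2)) • u n := by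
      simp only [m]
      module
    rw [e2, e1, hmu n] at hwe
    have e3 : v = r' • (‖m n‖ • u n) + (r' ^ 2 * (a ^ 2 * κ ^ 2 + H ^ 2)) • u n -
        (g n v) ^ 2 • u n := by
      have : p n + v + (g n v) ^ 2 • u n - (p n + (g n v) ^ 2 • u n) =
        p n + r' • (‖m n‖ • u n) + (r' ^ 2 * (a ^ 2 * κ ^ 2 + H ^ 2)) • u n -
          (p n + (g n v) ^ 2 • u n) := by rw [hwe]
      calc v = p n + v + (g n v) ^ 2 • u n - (p n + (g n v) ^ 2 • u n) := by abel
        _ = _ := this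
        _ = _ := by abel
    rw [e3, hb]
    module
  have hbn : |b| < r := by
    rw [hvb, norm_smul, hu, mul_one, Real.norm_eq_abs] at hvn
    exact hvn
  have hgv : g n v = b * κ := by rw [hvb, map_smul, smul_eq_mul]
  rw [hgv] at hb
  have hκ1 : κ ^ 2 ≤ 1 := by
    rw [← sq_abs]
    refine pow_le_one₀ (abs_nonneg _) ?_
    have := R271.abs_dual_le_norm (g n) (hg1 n) (u n)
    rwa [hu] at this
  exact final_num (hη0 n) (hη1 n) hH0 hH1 hr' hr (hm0 n) (hm1 n) (hmlow n) hκ1 hbn hb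

end Pool.Agent.Results.MP_122452_an.AdmissiblePowerTwo
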